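import Pool.Agent.Y246.LG.Stm3

/-!
# LG2-FACT: S_COEF and S_FACT (helper908)
-/

set_option autoImplicit false

namespace Pool.Agent.Y908.LG2

open Pool.Agent.Y246.LG Polynomial

theorem coef_gen {ι : Type} [DecidableEq ι] (a : ι → ℝ) (j : ℕ) : ∀ s : Finset ι,
    (j.factorial : ℝ) * (∏ i ∈ s, (1 + C (a i) * X) : ℝ[X]).coeff j =
      aug a (List.replicate j 1) s := by
  induction j with
  | zero =>
    intro s
    rw [coeff_zero_eq_eval_zero, eval_prod]
    simp [aug]
  | succ j ih =>
    intro s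
    have h1 := coeff_derivative (∏ i ∈ s, (1 + C (a i) * X) : ℝ[X]) j
    have h2 : ((j + 1).factorial : ℝ) = (j + 1) * (j.factorial : ℝ) := by
      rw [Nat.factorial_succ]; push_cast; ring
    rw [h2, List.replicate_succ]
    simp only [aug]
    have h3 : (j.factorial : ℝ) * (derivative (∏ i ∈ s, (1 + C (a i) * X) : ℝ[X])).coeff j =
        ∑ x ∈ s, a x ^ 1 * aug a (List.replicate j 1) (s.erase x) := by
      rw [derivative_prod_finset, finsetSum_coeff, Finset.mul_sum]
      refine Finset.sum_congr rfl fun x _ => ?_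
      rw [← ih (s.erase x)]
      simp only [derivative_add, derivative_one, derivative_mul, derivative_C, zero_mul, zero_add,
        derivative_X, mul_one, coeff_mul_C, pow_one]
      ring
    rw [← h3, h1]
    ring

theorem tCOEF : S_COEF := fun _ a j => coef_gen a j Finset.univ

theorem fact_gen (N : ℕ) : ∀ P : ℝ[X], P.natDegree = N → NegRoots P →
    ∃ (m : ℕ) (a : Fin m → ℝ), (∀ i, 0 ≤ a i) ∧
      P.coeff 0 ≠ 0 ∧ P = C (P.coeff 0) * ∏ i, (1 + C (a i) * X) := by
  induction N with
  | zero =>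
    intro P hN hP
    have h1 : P = C (P.coeff 0) := eq_C_of_natDegree_eq_zero hN
    refine ⟨0, Fin.elim0, fun i => i.elim0, ?_, ?_⟩
    · intro h0
      rw [h0, map_zero] at h1
      exact hP.1 h1
    · simpa using h1
  | succ N ih =>
    intro P hN hP
    have hdeg : P.degree ≠ 0 := by
      intro h
      have h7 : P.natDegree = 0 := natDegree_eq_of_degree_eq_some (n := 0) (by simpa using h)
      omega
    obtain ⟨z, hz⟩ := IsAlgClosed.exists_aeval_eq_zero ℂ P hdeg
    obtain ⟨him, hre⟩ := hP.2 z hz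
    have hzr : z = ((z.re : ℝ) : ℂ) := by
      apply Complex.ext <;> simp [him]
    obtain ⟨r, hr⟩ : ∃ r : ℝ, r = z.re := ⟨_, rfl⟩
    rw [← hr] at hzr hre
    have hroot : P.IsRoot r := by
      rw [hzr] at hz
      have h2 : aeval ((r : ℝ) : ℂ) P = ((P.eval r : ℝ) : ℂ) := by
        have := Polynomial.aeval_algebraMap_apply ℂ r P
        simpa using this
      rw [h2] at hz
      exact_mod_cast hz
    obtain ⟨Q, hQ⟩ := dvd_iff_isRoot.2 hroot
    have hQ0 : Q ≠ 0 := by
      rintro rfl
      rw [mul_zero] at hQ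
      exact hP.1 hQ
    have hdQ : Q.natDegree = N := by
      have := natDegree_mul (X_sub_C_ne_zero r) hQ0
      rw [← hQ, natDegree_X_sub_C, hN] at this
      omega
    have hNQ : NegRoots Q := by
      refine ⟨hQ0, fun w hw => hP.2 w ?_⟩
      rw [hQ, map_mul, hw, mul_zero]
    obtain ⟨m, a, ha, hQc, hQe⟩ := ih Q hdQ hNQ
    have hc0 : P.coeff 0 = -r * Q.coeff 0 := by
      rw [hQ, mul_coeff_zero]
      simp
    refine ⟨m + 1, Fin.cons (-1 / r) a, ?_, ?_, ?_⟩
    · intro i
      refine Fin.cases ?_ (fun i => ?_) i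
      · rw [Fin.cons_zero]
        exact (div_pos_of_neg_of_neg (by norm_num) hre).le
      · rw [Fin.cons_succ]; exact ha i
    · rw [hc0]
      exact mul_ne_zero (by linarith) hQc
    · rw [Fin.prod_univ_succ, hc0]
      simp only [Fin.cons_zero, Fin.cons_succ]
      have h3 : (X - C r : ℝ[X]) = C (-r) * (1 + C (-1 / r) * X) := by
        rw [mul_add, mul_one, ← mul_assoc, ← C_mul]
        have hr0 : r ≠ 0 := hre.ne
        have : -r * (-1 / r) = 1 := by field_simp
        rw [this, C_neg, C_1, one_mul]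
        ring
      calc P = (X - C r) * Q := hQ
        _ = C (-r) * (1 + C (-1 / r) * X) * (C (Q.coeff 0) * ∏ i, (1 + C (a i) * X)) := by
          rw [← hQe, ← h3]
        _ = _ := by rw [C_mul]; ring

theorem tFACT : S_FACT := fun P hP => fact_gen P.natDegree P rfl hP

end Pool.Agent.Y908.LG2
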