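import Pool.Agent.Y246.LG.Stm3

/-!
# LG2-FIVE (helper908)
-/

set_option autoImplicit false

namespace Pool.Agent.Y908.LG2

open Pool.Agent.Y246.LG Finset

variable {ι : Type} [DecidableEq ι]

theorem aug_swap (a : ι → ℝ) (c d : ℕ) (l : List ℕ) (s : Finset ι) :
    aug a (c :: d :: l) s = aug a (d :: c :: l) s := by
  simp only [aug, Finset.mul_sum]
  rw [Finset.sum_comm' (s' := fun y => s.erase y) (t' := s)]
  · refine Finset.sum_congr rfl fun y _ => Finset.sum_congr rfl fun x _ => ?_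
    rw [Finset.erase_right_comm]
    ring
  · intro x y
    simp only [Finset.mem_erase]
    tauto

theorem aug_perm (a : ι → ℝ) {l l' : List ℕ} (h : List.Perm l l') :
    ∀ s : Finset ι, aug a l s = aug a l' s := by
  induction h with
  | nil => intro s; rfl
  | cons x _ ih =>
    intro s
    simp only [aug]
    exact Finset.sum_congr rfl fun y _ => by rw [ih]
  | swap x y l => intro s; exact aug_swap a y x l s
  | trans _ _ ih1 ih2 => intro s; rw [ih1, ih2]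

/-- sums over ordered 5-tuples of distinct elements -/
noncomputable def S5 (s : Finset ι) : (ι → ι → ι → ι → ι → ℝ) →ₗ[ℝ] ℝ where
  toFun F := ∑ x ∈ s, ∑ y ∈ s.erase x, ∑ z ∈ (s.erase x).erase y,
    ∑ u ∈ ((s.erase x).erase y).erase z, ∑ v ∈ (((s.erase x).erase y).erase z).erase u, F x y z u v
  map_add' F G := by simp [Finset.sum_add_distrib]
  map_smul' c F := by simp [Finset.mul_sum]

/-- monomials -/
def mon (a : ι → ℝ) (c1 c2 c3 c4 c5 : ℕ) : ι → ι → ι → ι → ι → ℝ :=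
  fun x y z u v => a x ^ c1 * (a y ^ c2 * (a z ^ c3 * (a u ^ c4 * a v ^ c5)))

theorem S5_mon (a : ι → ℝ) (c1 c2 c3 c4 c5 : ℕ) (s : Finset ι) :
    S5 s (mon a c1 c2 c3 c4 c5) = aug a [c1, c2, c3, c4, c5] s := by
  simp only [S5, mon, aug, LinearMap.coe_mk, AddHom.coe_mk, mul_one, Finset.mul_sum]

theorem S5_nonneg (s : Finset ι) (F : ι → ι → ι → ι → ι → ℝ) (h : ∀ x y z u v, 0 ≤ F x y z u v) :
    0 ≤ S5 s F := by
  simp only [S5, LinearMap.coe_mk, AddHom.coe_mk]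
  exact Finset.sum_nonneg fun _ _ => Finset.sum_nonneg fun _ _ => Finset.sum_nonneg fun _ _ =>
    Finset.sum_nonneg fun _ _ => Finset.sum_nonneg fun _ _ => h _ _ _ _ _

/-- the symmetric polynomial in terms of power sums -/
noncomputable def PP (τ : ℝ) (v : Fin 5 → ℝ) : ℝ :=
  τ ^ 2 * (∑ i, v i) + 4 * τ * ((∑ i, v i) ^ 4 / 4 - 2 * (∑ i, v i) ^ 2 * (∑ i, v i ^ 2)
    + 7 / 4 * (∑ i, v i ^ 2) ^ 2 + 3 * (∑ i, v i) * (∑ i, v i ^ 3) - 3 * (∑ i, v i ^ 4))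
    + (∏ i, v i) * (72 * (∑ i, v i ^ 2) + 24 * ((∑ i, v i) ^ 2 - ∑ i, v i ^ 2))

theorem PP_perm (τ : ℝ) (v : Fin 5 → ℝ) (σ : Equiv.Perm (Fin 5)) : PP τ (v ∘ σ) = PP τ v := by
  unfold PP
  simp only [Function.comp]
  rw [Equiv.sum_comp σ (fun i => v i), Equiv.sum_comp σ (fun i => v i ^ 2),
    Equiv.sum_comp σ (fun i => v i ^ 3), Equiv.sum_comp σ (fun i => v i ^ 4),
    Equiv.prod_comp σ (fun i => v i)]

/-- the key inequality -/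
theorem keyK (d1 d2 d3 d4 d5 : ℝ) (h1 : 0 ≤ d1) (h2 : 0 ≤ d2) (h3 : 0 ≤ d3) (h4 : 0 ≤ d4)
    (h5 : 0 ≤ d5) (w : Fin 5 → ℝ) (e0 : w 0 = d1) (e1 : w 1 = d1 + d2) (e2 : w 2 = d1 + d2 + d3)
    (e3 : w 3 = d1 + d2 + d3 + d4) (e4 : w 4 = d1 + d2 + d3 + d4 + d5) :
    0 ≤ ((∑ i, w i) ^ 4 / 4 - 2 * (∑ i, w i) ^ 2 * (∑ i, w i ^ 2)
    + 7 / 4 * (∑ i, w i ^ 2) ^ 2 + 3 * (∑ i, w i) * (∑ i, w i ^ 3) - 3 * (∑ i, w i ^ 4))
    + 4 * w 4 ^ 2 * (w 0 * w 1) := by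
  simp only [Fin.sum_univ_five]
  rw [e0, e1, e2, e3, e4]
  have key : ((d1 + (d1 + d2) + (d1 + d2 + d3) + (d1 + d2 + d3 + d4) +
      (d1 + d2 + d3 + d4 + d5)) ^ 4 / 4 - 2 * (d1 + (d1 + d2) + (d1 + d2 + d3) +
      (d1 + d2 + d3 + d4) + (d1 + d2 + d3 + d4 + d5)) ^ 2 * (d1 ^ 2 + (d1 + d2) ^ 2 +
      (d1 + d2 + d3) ^ 2 + (d1 + d2 + d3 + d4) ^ 2 + (d1 + d2 + d3 + d4 + d5) ^ 2)
      + 7 / 4 * (d1 ^ 2 + (d1 + d2) ^ 2 + (d1 + d2 + d3) ^ 2 + (d1 + d2 + d3 + d4) ^ 2 +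
      (d1 + d2 + d3 + d4 + d5) ^ 2) ^ 2 + 3 * (d1 + (d1 + d2) + (d1 + d2 + d3) +
      (d1 + d2 + d3 + d4) + (d1 + d2 + d3 + d4 + d5)) * (d1 ^ 3 + (d1 + d2) ^ 3 +
      (d1 + d2 + d3) ^ 3 + (d1 + d2 + d3 + d4) ^ 3 + (d1 + d2 + d3 + d4 + d5) ^ 3)
      - 3 * (d1 ^ 4 + (d1 + d2) ^ 4 + (d1 + d2 + d3) ^ 4 + (d1 + d2 + d3 + d4) ^ 4 +
      (d1 + d2 + d3 + d4 + d5) ^ 4))
      + 4 * (d1 + d2 + d3 + d4 + d5) ^ 2 * (d1 * (d1 + d2)) =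
      (d3 - d1) ^ 2 * (d4 ^ 2 + d4 * d5 + d5 ^ 2) +
      (d4 - d1) ^ 2 * (d4 ^ 2 + (3/2) * (d4 * d5) + (1/2) * d5 ^ 2) + (
      14 * (d1 ^ 4) + 44 * (d1 ^ 3 * d2) + 32 * (d1 ^ 3 * d3) + 24 * (d1 ^ 3 * d4) + 16 * (d1 ^ 3 *
    d5) + 46 * (d1 ^ 2 * d2 ^ 2) + 67 * (d1 ^ 2 * d2 * d3) + 50 * (d1 ^ 2 * d2 * d4) + 33 * (d1
    ^ 2 * d2 * d5) + 19 * (d1 ^ 2 * d3 ^ 2) + 28 * (d1 ^ 2 * d3 * d4) + 18 * (d1 ^ 2 * d3 * d5)
    + 5 * (d1 ^ 2 * d4 ^ 2) + (17/2) * (d1 ^ 2 * d4 * d5) + (1/2) * (d1 ^ 2 * d5 ^ 2) + 16 * (d1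
    * d2 ^ 3) + 35 * (d1 * d2 ^ 2 * d3) + 26 * (d1 * d2 ^ 2 * d4) + 17 * (d1 * d2 ^ 2 * d5) + 19
    * (d1 * d2 * d3 ^ 2) + 28 * (d1 * d2 * d3 * d4) + 18 * (d1 * d2 * d3 * d5) + 6 * (d1 * d2 *
    d4 ^ 2) + 10 * (d1 * d2 * d4 * d5) + 1 * (d1 * d2 * d5 ^ 2) + 2 * (d3 * d4 ^ 3) + 3 * (d3 *
    d4 ^ 2 * d5) + 1 * (d3 * d4 * d5 ^ 2) + (1/2) * (d4 ^ 3 * d5) + (1/2) * (d4 ^ 2 * d5 ^ 2)) := by
    ring
  rw [key]
  positivity

theorem PP_sorted (τ : ℝ) (hτ : 0 ≤ τ) (w : Fin 5 → ℝ) (h0 : 0 ≤ w 0) (h01 : w 0 ≤ w 1)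
    (h12 : w 1 ≤ w 2) (h23 : w 2 ≤ w 3) (h34 : w 3 ≤ w 4) : 0 ≤ PP τ w := by
  have hK := keyK (w 0) (w 1 - w 0) (w 2 - w 1) (w 3 - w 2) (w 4 - w 3) h0 (by linarith)
    (by linarith) (by linarith) (by linarith) w rfl (by ring) (by ring) (by ring) (by ring)
  unfold PP
  set I := (∑ i, w i) ^ 4 / 4 - 2 * (∑ i, w i) ^ 2 * (∑ i, w i ^ 2)
    + 7 / 4 * (∑ i, w i ^ 2) ^ 2 + 3 * (∑ i, w i) * (∑ i, w i ^ 3) - 3 * (∑ i, w i ^ 4) with hI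
  have g1 : 0 ≤ w 1 := h0.trans h01
  have g2 : 0 ≤ w 2 := g1.trans h12
  have g3 : 0 ≤ w 3 := g2.trans h23
  have g4 : 0 ≤ w 4 := g3.trans h34
  have hs : w 4 ≤ ∑ i, w i := by
    rw [Fin.sum_univ_five]; linarith
  have hs2 : w 4 ^ 2 ≤ ∑ i, w i ^ 2 := by
    rw [Fin.sum_univ_five]
    nlinarith [sq_nonneg (w 0), sq_nonneg (w 1), sq_nonneg (w 2), sq_nonneg (w 3)]
  have hs3 : ∑ i, w i ^ 2 ≤ (∑ i, w i) ^ 2 := by
    rw [Fin.sum_univ_five, Fin.sum_univ_five]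
    have : 0 ≤ 2 * (w 0 * w 1 + w 0 * w 2 + w 0 * w 3 + w 0 * w 4 + w 1 * w 2 + w 1 * w 3 +
      w 1 * w 4 + w 2 * w 3 + w 2 * w 4 + w 3 * w 4) := by positivity
    nlinarith
  set y := w 0 * w 1 with hy
  have hy0 : 0 ≤ y := mul_nonneg h0 g1
  have hp : w 4 * y ^ 2 ≤ ∏ i, w i := by
    rw [Fin.prod_univ_five]
    have h1 : y ≤ w 2 * w 3 := mul_le_mul (h01.trans h12) ((h12.trans h23)) g1 g2
    have h2 : y * y ≤ y * (w 2 * w 3) := mul_le_mul_of_nonneg_left h1 hy0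
    have h3 := mul_le_mul_of_nonneg_left h2 g4
    calc w 4 * y ^ 2 = w 4 * (y * y) := by ring
      _ ≤ w 4 * (y * (w 2 * w 3)) := h3
      _ = _ := by rw [hy]; ring
  have hp0 : 0 ≤ w 4 * y ^ 2 := by positivity
  have t1 : τ ^ 2 * w 4 ≤ τ ^ 2 * ∑ i, w i := mul_le_mul_of_nonneg_left hs (by positivity)
  have t2 : 4 * τ * (-(4 * w 4 ^ 2 * y)) ≤ 4 * τ * I :=
    mul_le_mul_of_nonneg_left (by linarith) (by positivity)
  have t3 : (w 4 * y ^ 2) * (72 * w 4 ^ 2) ≤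
      (∏ i, w i) * (72 * (∑ i, w i ^ 2) + 24 * ((∑ i, w i) ^ 2 - ∑ i, w i ^ 2)) :=
    mul_le_mul hp (by linarith) (by positivity) (hp0.trans hp)
  have t4 : 0 ≤ τ ^ 2 * w 4 + 4 * τ * (-(4 * w 4 ^ 2 * y)) + (w 4 * y ^ 2) * (72 * w 4 ^ 2) := by
    have : τ ^ 2 * w 4 + 4 * τ * (-(4 * w 4 ^ 2 * y)) + (w 4 * y ^ 2) * (72 * w 4 ^ 2) =
      w 4 * ((τ - 8 * (w 4 * y)) ^ 2 + 8 * (w 4 * y) ^ 2) := by ring
    rw [this]
    positivity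
  linarith

theorem PP_nonneg (τ : ℝ) (hτ : 0 ≤ τ) (v : Fin 5 → ℝ) (hv : ∀ i, 0 ≤ v i) : 0 ≤ PP τ v := by
  rw [← PP_perm τ v (Tuple.sort v)]
  have hm := Tuple.monotone_sort v
  exact PP_sorted τ hτ _ (hv _) (hm (by decide)) (hm (by decide)) (hm (by decide)) (hm (by decide))

theorem t : S_FIVE := by
  intro ι _ a s τ ha hτ
  set G : ι → ι → ι → ι → ι → ℝ := (τ ^ 2 / 5 : ℝ) • (mon a 2 1 1 1 1 + mon a 1 2 1 1 1 + mon a 1 1 2 1 1 + mon a 1 1 1 2 1 + mon a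
    1 1 1 1 2) + (8 * τ / 10 : ℝ) • (mon a 3 3 1 1 1 + mon a 3 1 3 1 1 + mon a 3 1 1 3 1 + mon a
    3 1 1 1 3 + mon a 1 3 3 1 1 + mon a 1 3 1 3 1 + mon a 1 3 1 1 3 + mon a 1 1 3 3 1 + mon a 1
    1 3 1 3 + mon a 1 1 1 3 3) + ((-(24 * τ / 30)) : ℝ) • (mon a 3 2 2 1 1 + mon a 3 2 1 2 1 +
    mon a 3 2 1 1 2 + mon a 3 1 2 2 1 + mon a 3 1 2 1 2 + mon a 3 1 1 2 2 + mon a 2 3 2 1 1 +
    mon a 2 3 1 2 1 + mon a 2 3 1 1 2 + mon a 2 2 3 1 1 + mon a 2 2 1 3 1 + mon a 2 2 1 1 3 +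
    mon a 2 1 3 2 1 + mon a 2 1 3 1 2 + mon a 2 1 2 3 1 + mon a 2 1 2 1 3 + mon a 2 1 1 3 2 +
    mon a 2 1 1 2 3 + mon a 1 3 2 2 1 + mon a 1 3 2 1 2 + mon a 1 3 1 2 2 + mon a 1 2 3 2 1 +
    mon a 1 2 3 1 2 + mon a 1 2 2 3 1 + mon a 1 2 2 1 3 + mon a 1 2 1 3 2 + mon a 1 2 1 2 3 +
    mon a 1 1 3 2 2 + mon a 1 1 2 3 2 + mon a 1 1 2 2 3) + (24 * τ / 5 : ℝ) • (mon a 2 2 2 2 1 +
    mon a 2 2 2 1 2 + mon a 2 2 1 2 2 + mon a 2 1 2 2 2 + mon a 1 2 2 2 2) + (72 / 5 : ℝ) • (mon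
    a 4 2 2 2 2 + mon a 2 4 2 2 2 + mon a 2 2 4 2 2 + mon a 2 2 2 4 2 + mon a 2 2 2 2 4) + (96 /
    10 : ℝ) • (mon a 3 3 2 2 2 + mon a 3 2 3 2 2 + mon a 3 2 2 3 2 + mon a 3 2 2 2 3 + mon a 2 3
    3 2 2 + mon a 2 3 2 3 2 + mon a 2 3 2 2 3 + mon a 2 2 3 3 2 + mon a 2 2 3 2 3 + mon a 2 2 2
    3 3) with hG
  have h0 : 0 ≤ S5 s G := by
    apply S5_nonneg
    intro x y z u v
    have h1 := PP_nonneg τ hτ ![a x, a y, a z, a u, a v] (by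
      intro i
      fin_cases i <;> simp [ha])
    have h2 : G x y z u v = (a x * a y * a z * a u * a v) / 5 *
        PP τ ![a x, a y, a z, a u, a v] := by
      have e : PP τ ![a x, a y, a z, a u, a v] = τ ^ 2 * (a x + a y + a z + a u + a v) +
        4 * τ * ((a x + a y + a z + a u + a v) ^ 4 / 4 - 2 * (a x + a y + a z + a u + a v) ^ 2 *
        (a x ^ 2 + a y ^ 2 + a z ^ 2 + a u ^ 2 + a v ^ 2)
        + 7 / 4 * (a x ^ 2 + a y ^ 2 + a z ^ 2 + a u ^ 2 + a v ^ 2) ^ 2 +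
        3 * (a x + a y + a z + a u + a v) * (a x ^ 3 + a y ^ 3 + a z ^ 3 + a u ^ 3 + a v ^ 3) -
        3 * (a x ^ 4 + a y ^ 4 + a z ^ 4 + a u ^ 4 + a v ^ 4))
        + (a x * a y * a z * a u * a v) * (72 * (a x ^ 2 + a y ^ 2 + a z ^ 2 + a u ^ 2 + a v ^ 2) +
        24 * ((a x + a y + a z + a u + a v) ^ 2 -
        (a x ^ 2 + a y ^ 2 + a z ^ 2 + a u ^ 2 + a v ^ 2))) := by
        unfold PP
        simp only [Fin.sum_univ_five, Fin.prod_univ_five, Matrix.cons_val]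
      rw [e, hG]
      simp only [mon, Pi.add_apply, Pi.smul_apply, smul_eq_mul]
      generalize a x = X
      generalize a y = Y
      generalize a z = Z
      generalize a u = U
      generalize a v = V
      ring
    rw [h2]
    have := ha x
    have := ha y
    have := ha z
    have := ha u
    have := ha v
    positivity
  rw [hG] at h0
  simp only [map_add, map_smul, S5_mon, smul_eq_mul] at h0
  rw [aug_perm a (show List.Perm [1, 2, 1, 1, 1] [2, 1, 1, 1, 1] by decide) s,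
    aug_perm a (show List.Perm [1, 1, 2, 1, 1] [2, 1, 1, 1, 1] by decide) s,
    aug_perm a (show List.Perm [1, 1, 1, 2, 1] [2, 1, 1, 1, 1] by decide) s,
    aug_perm a (show List.Perm [1, 1, 1, 1, 2] [2, 1, 1, 1, 1] by decide) s,
    aug_perm a (show List.Perm [3, 1, 3, 1, 1] [3, 3, 1, 1, 1] by decide) s,
    aug_perm a (show List.Perm [3, 1, 1, 3, 1] [3, 3, 1, 1, 1] by decide) s,
    aug_perm a (show List.Perm [3, 1, 1, 1, 3] [3, 3, 1, 1, 1] by decide) s,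
    aug_perm a (show List.Perm [1, 3, 3, 1, 1] [3, 3, 1, 1, 1] by decide) s,
    aug_perm a (show List.Perm [1, 3, 1, 3, 1] [3, 3, 1, 1, 1] by decide) s,
    aug_perm a (show List.Perm [1, 3, 1, 1, 3] [3, 3, 1, 1, 1] by decide) s,
    aug_perm a (show List.Perm [1, 1, 3, 3, 1] [3, 3, 1, 1, 1] by decide) s,
    aug_perm a (show List.Perm [1, 1, 3, 1, 3] [3, 3, 1, 1, 1] by decide) s,
    aug_perm a (show List.Perm [1, 1, 1, 3, 3] [3, 3, 1, 1, 1] by decide) s,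
    aug_perm a (show List.Perm [3, 2, 1, 2, 1] [3, 2, 2, 1, 1] by decide) s,
    aug_perm a (show List.Perm [3, 2, 1, 1, 2] [3, 2, 2, 1, 1] by decide) s,
    aug_perm a (show List.Perm [3, 1, 2, 2, 1] [3, 2, 2, 1, 1] by decide) s,
    aug_perm a (show List.Perm [3, 1, 2, 1, 2] [3, 2, 2, 1, 1] by decide) s,
    aug_perm a (show List.Perm [3, 1, 1, 2, 2] [3, 2, 2, 1, 1] by decide) s,
    aug_perm a (show List.Perm [2, 3, 2, 1, 1] [3, 2, 2, 1, 1] by decide) s,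
    aug_perm a (show List.Perm [2, 3, 1, 2, 1] [3, 2, 2, 1, 1] by decide) s,
    aug_perm a (show List.Perm [2, 3, 1, 1, 2] [3, 2, 2, 1, 1] by decide) s,
    aug_perm a (show List.Perm [2, 2, 3, 1, 1] [3, 2, 2, 1, 1] by decide) s,
    aug_perm a (show List.Perm [2, 2, 1, 3, 1] [3, 2, 2, 1, 1] by decide) s,
    aug_perm a (show List.Perm [2, 2, 1, 1, 3] [3, 2, 2, 1, 1] by decide) s,
    aug_perm a (show List.Perm [2, 1, 3, 2, 1] [3, 2, 2, 1, 1] by decide) s,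
    aug_perm a (show List.Perm [2, 1, 3, 1, 2] [3, 2, 2, 1, 1] by decide) s,
    aug_perm a (show List.Perm [2, 1, 2, 3, 1] [3, 2, 2, 1, 1] by decide) s,
    aug_perm a (show List.Perm [2, 1, 2, 1, 3] [3, 2, 2, 1, 1] by decide) s,
    aug_perm a (show List.Perm [2, 1, 1, 3, 2] [3, 2, 2, 1, 1] by decide) s,
    aug_perm a (show List.Perm [2, 1, 1, 2, 3] [3, 2, 2, 1, 1] by decide) s,
    aug_perm a (show List.Perm [1, 3, 2, 2, 1] [3, 2, 2, 1, 1] by decide) s,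
    aug_perm a (show List.Perm [1, 3, 2, 1, 2] [3, 2, 2, 1, 1] by decide) s,
    aug_perm a (show List.Perm [1, 3, 1, 2, 2] [3, 2, 2, 1, 1] by decide) s,
    aug_perm a (show List.Perm [1, 2, 3, 2, 1] [3, 2, 2, 1, 1] by decide) s,
    aug_perm a (show List.Perm [1, 2, 3, 1, 2] [3, 2, 2, 1, 1] by decide) s,
    aug_perm a (show List.Perm [1, 2, 2, 3, 1] [3, 2, 2, 1, 1] by decide) s,
    aug_perm a (show List.Perm [1, 2, 2, 1, 3] [3, 2, 2, 1, 1] by decide) s,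
    aug_perm a (show List.Perm [1, 2, 1, 3, 2] [3, 2, 2, 1, 1] by decide) s,
    aug_perm a (show List.Perm [1, 2, 1, 2, 3] [3, 2, 2, 1, 1] by decide) s,
    aug_perm a (show List.Perm [1, 1, 3, 2, 2] [3, 2, 2, 1, 1] by decide) s,
    aug_perm a (show List.Perm [1, 1, 2, 3, 2] [3, 2, 2, 1, 1] by decide) s,
    aug_perm a (show List.Perm [1, 1, 2, 2, 3] [3, 2, 2, 1, 1] by decide) s,
    aug_perm a (show List.Perm [2, 2, 2, 1, 2] [2, 2, 2, 2, 1] by decide) s,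
    aug_perm a (show List.Perm [2, 2, 1, 2, 2] [2, 2, 2, 2, 1] by decide) s,
    aug_perm a (show List.Perm [2, 1, 2, 2, 2] [2, 2, 2, 2, 1] by decide) s,
    aug_perm a (show List.Perm [1, 2, 2, 2, 2] [2, 2, 2, 2, 1] by decide) s,
    aug_perm a (show List.Perm [2, 4, 2, 2, 2] [4, 2, 2, 2, 2] by decide) s,
    aug_perm a (show List.Perm [2, 2, 4, 2, 2] [4, 2, 2, 2, 2] by decide) s,
    aug_perm a (show List.Perm [2, 2, 2, 4, 2] [4, 2, 2, 2, 2] by decide) s,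
    aug_perm a (show List.Perm [2, 2, 2, 2, 4] [4, 2, 2, 2, 2] by decide) s,
    aug_perm a (show List.Perm [3, 2, 3, 2, 2] [3, 3, 2, 2, 2] by decide) s,
    aug_perm a (show List.Perm [3, 2, 2, 3, 2] [3, 3, 2, 2, 2] by decide) s,
    aug_perm a (show List.Perm [3, 2, 2, 2, 3] [3, 3, 2, 2, 2] by decide) s,
    aug_perm a (show List.Perm [2, 3, 3, 2, 2] [3, 3, 2, 2, 2] by decide) s,
    aug_perm a (show List.Perm [2, 3, 2, 3, 2] [3, 3, 2, 2, 2] by decide) s,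
    aug_perm a (show List.Perm [2, 3, 2, 2, 3] [3, 3, 2, 2, 2] by decide) s,
    aug_perm a (show List.Perm [2, 2, 3, 3, 2] [3, 3, 2, 2, 2] by decide) s,
    aug_perm a (show List.Perm [2, 2, 3, 2, 3] [3, 3, 2, 2, 2] by decide) s,
    aug_perm a (show List.Perm [2, 2, 2, 3, 3] [3, 3, 2, 2, 2] by decide) s] at h0
  linarith

end Pool.Agent.Y908.LG2
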