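import Pool.Agent.Y246.LG.Stm3
import Pool.Agent.Y246.LG.AllK

/-!
# LG2-TR (helper908)
-/

set_option autoImplicit false

namespace Pool.Agent.Y908.LG2

open Pool.Agent.Y246.LG Polynomial

theorem iteratedDeriv_poly (P : ℝ[X]) (j : ℕ) :
    iteratedDeriv j (fun y : ℝ => P.eval y) = fun y => (derivative^[j] P).eval y := by
  induction j with
  | zero => simp
  | succ j ih =>
    rw [iteratedDeriv_succ, ih, Function.iterate_succ_apply']
    funext y
    exact Polynomial.deriv _

theorem laguerreT_eq_LT (φ : ℝ → ℝ) (x : ℝ) (n : ℕ) : ∀ k : ℕ,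
    laguerreT φ n k x = LT n (fun j => iteratedDeriv j φ x) k := by
  induction n with
  | zero => intro k; rfl
  | succ n ih =>
    intro k
    simp only [laguerreT, Pool.Agent.Y246.LG.LT]
    rw [ih, ih, ih]

theorem tTR : S_TR := by
  intro n h P k x hP hk hx
  obtain ⟨i, rfl⟩ : ∃ i, k = n + 1 + i := ⟨k - (n + 1), by omega⟩
  rw [laguerreT_eq_LT]
  simp only [iteratedDeriv_poly]
  rw [← LT_shift (fun j => (derivative^[j] P).eval x) i n (n + 1) le_rfl]
  set D := derivative^[i] P with hD
  have hc : ∀ j, (derivative^[j + i] P).eval x = (j.factorial : ℝ) * (taylor x D).coeff j := by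
    intro j
    rw [taylor_coeff, Function.iterate_add_apply, ← hD, ← factorial_smul_hasseDeriv]
    simp
  simp only [hc]
  by_cases h0 : D = 0
  · rw [h0]
    simp only [map_zero, coeff_zero, mul_zero]
    rw [LT_zero]
  · have hN := negRoots_iterate hP i h0
    rw [← hD] at hN
    apply h
    refine ⟨?_, ?_⟩
    · intro hc0
      apply h0
      exact (taylor_injective x) (by rw [hc0, map_zero])
    · intro z hz
      rw [taylor_apply, aeval_comp] at hz
      have h1 := hN.2 _ hz
      simp only [map_add, aeval_X, aeval_C, Complex.coe_algebraMap, Complex.add_im,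
        Complex.ofReal_im, add_zero, Complex.add_re, Complex.ofReal_re] at h1
      exact ⟨h1.1, by linarith [h1.2]⟩

end Pool.Agent.Y908.LG2
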